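import Pool.Agent.MP_6cdbe4_gt.Ext

open CategoryTheory Pool.Agent.MP_6cdbe4_gt

universe u

/-- For every `n ≥ 1` the symmetric power functor `SP^n` on ultrametric spaces has two different,
even non-isomorphic, extensions onto the Kleisli category of the monad of max-min measures of
finite support. -/
theorem Pool.Agent.Results.MP_6cdbe4_gt.NotUnique.result (n : ℕ) (hn : 0 < n) :
    ∃ G₁ G₂ : Kleisli maxMinMonad.{u} ⥤ Kleisli maxMinMonad.{u},
      IsKleisliExtension maxMinMonad (symPowFunctor n) G₁ ∧
      IsKleisliExtension maxMinMonad (symPowFunctor n) G₂ ∧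
      G₁ ≠ G₂ ∧ IsEmpty (G₁ ≅ G₂) :=
  two_extensions n hn
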